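import Mathlib

/-!
# Counting for the Erdős graph of large girth and large chromatic number
-/

set_option autoImplicit false

namespace Pool.Agent.W207.ST

open Finset

/-- number of functions with constraints at an injective tuple of places -/
theorem card_constr {m i : ℕ} {T : Type} [Fintype T] [DecidableEq T] (es : Fin i → Fin m)
    (hes : Function.Injective es) (A : Fin i → Finset T) (hA : ∀ j, (A j).card ≤ 2) :
    ((univ : Finset (Fin m → T)).filter (fun f => ∀ j, f (es j) ∈ A j)).card *
      (Fintype.card T) ^ i ≤ 2 ^ i * (Fintype.card T) ^ m := by
  classical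
  have hsub : ((univ : Finset (Fin m → T)).filter (fun f => ∀ j, f (es j) ∈ A j)) ⊆
      Fintype.piFinset (fun e : Fin m => if h : ∃ j, es j = e then A h.choose else univ) := by
    intro f hf
    rw [mem_filter] at hf
    rw [Fintype.mem_piFinset]
    intro e
    by_cases h : ∃ j, es j = e
    · rw [dif_pos h]
      have := hf.2 h.choose
      rwa [h.choose_spec] at this
    · rw [dif_neg h]; exact mem_univ _
  have h1 := card_le_card hsub
  rw [Fintype.card_piFinset] at h1
  have h2 : ∏ e : Fin m, (if h : ∃ j, es j = e then A h.choose else univ).card ≤
      ∏ e : Fin m, (if e ∈ univ.image es then 2 else Fintype.card T) := by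
    apply prod_le_prod' 
    intro e _
    by_cases h : ∃ j, es j = e
    · rw [dif_pos h, if_pos (by simpa using h)]
      exact hA _
    · rw [dif_neg h, if_neg (by simpa using h), card_univ]
  have h3 : ∏ e : Fin m, (if e ∈ univ.image es then 2 else Fintype.card T) =
      2 ^ i * (Fintype.card T) ^ (m - i) := by
    rw [prod_ite, prod_const, prod_const]
    have e1 : (univ.filter (fun e => e ∈ univ.image es)).card = i := by
      rw [filter_mem_eq_inter, univ_inter, card_image_of_injective _ hes, card_univ,
        Fintype.card_fin]
    have e2 : (univ.filter (fun e => ¬ e ∈ univ.image es)).card = m - i := by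
      have := card_filter_add_card_filter_not (s := (univ : Finset (Fin m)))
        (fun e => e ∈ univ.image es)
      rw [e1, card_univ, Fintype.card_fin] at this
      omega
    rw [e1, e2]
  have him : i ≤ m := by
    have := Fintype.card_le_of_injective es hes
    simpa using this
  calc _ ≤ (2 ^ i * (Fintype.card T) ^ (m - i)) * (Fintype.card T) ^ i :=
        Nat.mul_le_mul_right _ (h1.trans (h2.trans h3.le))
    _ = 2 ^ i * (Fintype.card T) ^ m := by
        rw [mul_assoc, ← pow_add, Nat.sub_add_cancel him]

end Pool.Agent.W207.ST
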