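import Pool.Agent.W207.ST.Erdos

/-!
# Connected graphs with given chromatic number and large girth
-/

set_option autoImplicit false

namespace Pool.Agent.W207.ST

open Finset SimpleGraph

/-- colourable on a set of vertices -/
def colOn {V : Type} (G : SimpleGraph V) (k : ℕ) (S : Finset V) : Prop :=
  ∃ c : V → ℕ, (∀ u ∈ S, c u < k) ∧ ∀ u ∈ S, ∀ v ∈ S, G.Adj u v → c u ≠ c v

theorem exists_min {V : Type} [Fintype V] [DecidableEq V] (G : SimpleGraph V) (k : ℕ)
    (h : ¬ G.Colorable k) : ∃ S : Finset V, ¬ colOn G k S ∧ colOn G (k + 1) S := by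
  have h0 : ¬ colOn G k univ := by
    rintro ⟨c, hc1, hc2⟩
    apply h
    rw [colorable_iff_exists_bdd_nat_coloring]
    exact ⟨Coloring.mk c fun {u v} huv => hc2 u (mem_univ _) v (mem_univ _) huv,
      fun v => hc1 v (mem_univ _)⟩
  have key : ∀ n : ℕ, ∀ S : Finset V, S.card = n → ¬ colOn G k S →
      ∃ S : Finset V, ¬ colOn G k S ∧ colOn G (k + 1) S := by
    intro n
    induction n with
    | zero =>
      intro S hS hn
      exfalso
      apply hn
      rw [card_eq_zero] at hS
      subst hS
      exact ⟨fun _ => 0, fun u hu => absurd hu (notMem_empty _),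
        fun u hu => absurd hu (notMem_empty _)⟩
    | succ n ih =>
      intro S hS hn
      have hne : S.Nonempty := by
        rw [← card_pos, hS]; exact Nat.succ_pos _
      obtain ⟨v, hv⟩ := hne
      by_cases hc : colOn G k (S.erase v)
      · refine ⟨S, hn, ?_⟩
        obtain ⟨c, hc1, hc2⟩ := hc
        refine ⟨fun u => if u = v then k else c u, ?_, ?_⟩
        · intro u hu
          by_cases huv : u = v
          · simp [huv]
          · simp only [huv, if_false]
            exact Nat.lt_succ_of_lt (hc1 u (mem_erase.2 ⟨huv, hu⟩))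
        · intro u hu w hw huw
          by_cases huv : u = v
          · have hwv : w ≠ v := fun h => huw.ne (huv.trans h.symm)
            simp only [huv, if_true, hwv, if_false]
            exact (hc1 w (mem_erase.2 ⟨hwv, hw⟩)).ne'
          · by_cases hwv : w = v
            · simp only [huv, if_false, hwv, if_true]
              exact (hc1 u (mem_erase.2 ⟨huv, hu⟩)).ne
            · simp only [huv, hwv, if_false]
              exact hc2 u (mem_erase.2 ⟨huv, hu⟩) w (mem_erase.2 ⟨hwv, hw⟩) huw
      · refine ih (S.erase v) ?_ hc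
        rw [card_erase_of_mem hv, hS]; rfl
  exact key _ univ rfl h0

/-- connected graphs of chromatic number exactly `k + 1` without short cycles -/
theorem crit (k g : ℕ) : ∃ (W : Type) (_ : Fintype W) (H : SimpleGraph W), H.Connected ∧
    H.Colorable (k + 1) ∧ ¬ H.Colorable k ∧
      ∀ i, i < g → ¬ (cycleGraph (i + 3)).IsContained H := by
  classical
  obtain ⟨n, G, hG1, hG2⟩ := erdos k g
  obtain ⟨S, hS1, hS2⟩ := exists_min G k hG2
  have hc1 : (G.induce (S : Set (Fin n))).Colorable (k + 1) := by
    obtain ⟨c, hc1, hc2⟩ := hS2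
    rw [colorable_iff_exists_bdd_nat_coloring]
    refine ⟨Coloring.mk (fun v => c v.1) ?_, ?_⟩
    · intro u v huv
      exact hc2 u.1 (by simpa using u.2) v.1 (by simpa using v.2) huv
    · intro v
      exact hc1 v.1 (by simpa using v.2)
  have hc2 : ¬ (G.induce (S : Set (Fin n))).Colorable k := by
    intro h
    apply hS1
    rw [colorable_iff_exists_bdd_nat_coloring] at h
    obtain ⟨C, hC⟩ := h
    refine ⟨fun v => if h : v ∈ (S : Set (Fin n)) then C ⟨v, h⟩ else 0, ?_, ?_⟩
    · intro u hu
      have hu' : u ∈ (S : Set (Fin n)) := by simpa using hu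
      simp only [hu', dite_true]
      exact hC _
    · intro u hu v hv huv
      have hu' : u ∈ (S : Set (Fin n)) := by simpa using hu
      have hv' : v ∈ (S : Set (Fin n)) := by simpa using hv
      simp only [hu', hv', dite_true]
      exact C.valid (v := ⟨u, hu'⟩) (w := ⟨v, hv'⟩) huv
  rw [colorable_iff_forall_connectedComponent] at hc2
  push Not at hc2
  obtain ⟨K, hK⟩ := hc2
  refine ⟨K, Fintype.ofFinite _, K.toSimpleGraph, K.connected_toSimpleGraph, ?_, hK, ?_⟩
  · exact (colorable_iff_forall_connectedComponent.1 hc1) K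
  · intro i hi hcon
    refine hG1 i hi ?_
    obtain ⟨c⟩ := hcon
    refine ⟨⟨⟨fun j => ((c j).1).1, ?_⟩, ?_⟩⟩
    · intro a b hab
      exact c.toHom.map_adj hab
    · intro a b hab
      exact c.injective (Subtype.ext (Subtype.ext hab))

end Pool.Agent.W207.ST
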