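import Pool.Agent.W207.ST.Crit

/-!
# Attaching an ear
-/

set_option autoImplicit false

namespace Pool.Agent.W207.ST

open Finset SimpleGraph

/-- adjacency in the graph with an ear -/
def earAdj {W : Type} (H : SimpleGraph W) (a b : W) (m : ℕ) : W ⊕ Fin m → W ⊕ Fin m → Prop
  | Sum.inl u, Sum.inl v => H.Adj u v
  | Sum.inl u, Sum.inr j => (u = a ∧ j.val = 0) ∨ (u = b ∧ j.val + 1 = m)
  | Sum.inr j, Sum.inl u => (u = a ∧ j.val = 0) ∨ (u = b ∧ j.val + 1 = m)
  | Sum.inr j, Sum.inr l => j.val + 1 = l.val ∨ l.val + 1 = j.val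

/-- attach a path with `m` new vertices between `a` and `b` -/
def ear {W : Type} (H : SimpleGraph W) (a b : W) (m : ℕ) : SimpleGraph (W ⊕ Fin m) where
  Adj := earAdj H a b m
  symm := ⟨by
    rintro (u | j) (v | l) h
    · exact H.adj_symm h
    · exact h
    · exact h
    · exact Or.symm h⟩
  loopless := ⟨by
    rintro (u | j) h
    · exact H.loopless.irrefl _ h
    · rcases h with h | h <;> omega⟩

variable {W : Type} {H : SimpleGraph W} {a b : W} {m : ℕ}

theorem ear_ll {u v : W} : (ear H a b m).Adj (Sum.inl u) (Sum.inl v) ↔ H.Adj u v := Iff.rfl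

theorem ear_lr {u : W} {j : Fin m} : (ear H a b m).Adj (Sum.inl u) (Sum.inr j) ↔
    (u = a ∧ j.val = 0) ∨ (u = b ∧ j.val + 1 = m) := Iff.rfl

theorem ear_rl {u : W} {j : Fin m} : (ear H a b m).Adj (Sum.inr j) (Sum.inl u) ↔
    (u = a ∧ j.val = 0) ∨ (u = b ∧ j.val + 1 = m) := Iff.rfl

theorem ear_rr {j l : Fin m} : (ear H a b m).Adj (Sum.inr j) (Sum.inr l) ↔
    j.val + 1 = l.val ∨ l.val + 1 = j.val := Iff.rfl

/-- previous vertex on the ear -/
def prv (a : W) {m : ℕ} (j : Fin m) : W ⊕ Fin m :=
  if j.val = 0 then Sum.inl a else Sum.inr ⟨j.val - 1, by omega⟩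

/-- next vertex on the ear -/
def nxt (b : W) {m : ℕ} (j : Fin m) : W ⊕ Fin m :=
  if h : j.val + 1 < m then Sum.inr ⟨j.val + 1, h⟩ else Sum.inl b

theorem nbr {j : Fin m} {y : W ⊕ Fin m} (h : (ear H a b m).Adj (Sum.inr j) y) :
    y = prv a j ∨ y = nxt b j := by
  have hj := j.2
  rcases y with u | l
  · rw [ear_rl] at h
    rcases h with ⟨h1, h2⟩ | ⟨h1, h2⟩
    · left
      rw [prv, if_pos h2, h1]
    · right
      rw [nxt, dif_neg (by omega), h1]
  · rw [ear_rr] at h
    have hl := l.2
    rcases h with h | h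
    · right
      rw [nxt, dif_pos (by omega)]
      congr 1
      apply Fin.ext
      simp [h]
    · left
      rw [prv, if_neg (by omega)]
      congr 1
      apply Fin.ext
      simp only
      omega

theorem cyc_ear {i : ℕ} (f : Fin (i + 3) → W ⊕ Fin m) (hf : Function.Injective f)
    (hadj : ∀ j, (ear H a b m).Adj (f j) (f (j + 1))) :
    (∀ j, ∃ u, f j = Sum.inl u) ∨
      ((∀ l : Fin m, ∃ j, f j = Sum.inr l) ∧ (∃ j, f j = Sum.inl a) ∧ (∃ j, f j = Sum.inl b)) := by
  by_cases hall : ∀ j, ∃ u, f j = Sum.inl u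
  · exact Or.inl hall
  right
  push Not at hall
  obtain ⟨j0, hj0⟩ := hall
  have hex : ∃ l0, f j0 = Sum.inr l0 := by
    rcases h : f j0 with u | l
    · exact absurd h (hj0 u)
    · exact ⟨l, rfl⟩
  obtain ⟨l0, hl0⟩ := hex
  -- closure
  have hcl : ∀ l : Fin m, (∃ j, f j = Sum.inr l) → (∃ j, f j = prv a l) ∧ (∃ j, f j = nxt b l) := by
    rintro l ⟨j, hj⟩
    have h1 := hadj j
    have h2 := hadj (j - 1)
    rw [sub_add_cancel] at h2
    rw [hj] at h1 h2
    have h3 := nbr h1
    have h4 := nbr h2.symm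
    have hne : f (j + 1) ≠ f (j - 1) := by
      intro h
      have := hf h
      have h5 : (1 : Fin (i + 3)) + 1 = 0 := by
        have h6 := congrArg (fun t => t - j + 1) this
        simpa [add_comm, add_left_comm, add_assoc] using h6
      have h7 := congrArg Fin.val h5
      rw [Fin.val_add, Fin.val_one, Fin.val_zero, Nat.mod_eq_of_lt (by omega)] at h7
      omega
    rcases h3 with h3 | h3 <;> rcases h4 with h4 | h4
    · exact absurd (h3.trans h4.symm) hne
    · exact ⟨⟨_, h3⟩, ⟨_, h4⟩⟩
    · exact ⟨⟨_, h4⟩, ⟨_, h3⟩⟩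
    · exact absurd (h3.trans h4.symm) hne
  have hup : ∀ d : ℕ, ∀ h : l0.val + d < m, ∃ j, f j = Sum.inr ⟨l0.val + d, h⟩ := by
    intro d
    induction d with
    | zero => intro h; exact ⟨j0, hl0⟩
    | succ d ih =>
      intro h
      obtain ⟨_, j, hj⟩ := hcl _ (ih (by omega))
      rw [nxt, dif_pos (by simpa [add_assoc] using h)] at hj
      exact ⟨j, hj⟩
  have hdown : ∀ d : ℕ, ∀ h : d ≤ l0.val, ∃ j, f j = Sum.inr ⟨l0.val - d, by omega⟩ := by
    intro d
    induction d with
    | zero => intro h; exact ⟨j0, hl0⟩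
    | succ d ih =>
      intro h
      obtain ⟨⟨j, hj⟩, _⟩ := hcl _ (ih (by omega))
      rw [prv, if_neg (by simp only; omega)] at hj
      exact ⟨j, hj⟩
  have hl0m := l0.2
  refine ⟨?_, ?_, ?_⟩
  · intro l
    rcases le_total l0.val l.val with h | h
    · obtain ⟨j, hj⟩ := hup (l.val - l0.val) (by have := l.2; omega)
      refine ⟨j, hj.trans ?_⟩
      congr 1
      apply Fin.ext
      simp only
      omega
    · obtain ⟨j, hj⟩ := hdown (l0.val - l.val) (by omega)
      refine ⟨j, hj.trans ?_⟩
      congr 1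
      apply Fin.ext
      simp only
      omega
  · obtain ⟨⟨j, hj⟩, _⟩ := hcl _ (hdown l0.val le_rfl)
    rw [prv, if_pos (by simp only; omega)] at hj
    exact ⟨j, hj⟩
  · obtain ⟨_, j, hj⟩ := hcl _ (hup (m - 1 - l0.val) (by omega))
    rw [nxt, dif_neg (by simp only; omega)] at hj
    exact ⟨j, hj⟩

/-- cyclically adjacent injective functions give cycles -/
theorem copy_of_cyc {V : Type} {G : SimpleGraph V} {i : ℕ} (f : Fin (i + 3) → V)
    (hf : Function.Injective f) (hadj : ∀ j, G.Adj (f j) (f (j + 1))) :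
    (cycleGraph (i + 3)).IsContained G := by
  refine ⟨⟨⟨f, ?_⟩, hf⟩⟩
  intro u v huv
  rw [cycleGraph_adj] at huv
  rcases huv with h | h
  · have : u = v + 1 := by rw [← h]; simp
    rw [this]
    exact (hadj v).symm
  · have : v = u + 1 := by rw [← h]; simp
    rw [this]
    exact hadj u

theorem cyc_of_copy {V : Type} {G : SimpleGraph V} {i : ℕ}
    (h : (cycleGraph (i + 3)).IsContained G) :
    ∃ f : Fin (i + 3) → V, Function.Injective f ∧ ∀ j, G.Adj (f j) (f (j + 1)) := by
  obtain ⟨c⟩ := h
  refine ⟨c, c.injective, fun j => ?_⟩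
  apply c.toHom.map_adj
  rw [cycleGraph_adj]
  right
  simp

theorem cyc_left {i : ℕ} (f : Fin (i + 3) → W ⊕ Fin m) (hf : Function.Injective f)
    (hadj : ∀ j, (ear H a b m).Adj (f j) (f (j + 1))) (h : ∀ j, ∃ u, f j = Sum.inl u) :
    (cycleGraph (i + 3)).IsContained H := by
  choose u hu using h
  refine copy_of_cyc u ?_ ?_
  · intro x y hxy
    apply hf
    rw [hu, hu, hxy]
  · intro j
    have := hadj j
    rw [hu, hu, ear_ll] at this
    exact this

theorem cyc_card {i : ℕ} (hab : a ≠ b) (f : Fin (i + 3) → W ⊕ Fin m)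
    (h1 : ∀ l : Fin m, ∃ j, f j = Sum.inr l) (h2 : ∃ j, f j = Sum.inl a)
    (h3 : ∃ j, f j = Sum.inl b) : m + 2 ≤ i + 3 := by
  choose jl hjl using h1
  obtain ⟨ja, hja⟩ := h2
  obtain ⟨jb, hjb⟩ := h3
  have := Fintype.card_le_of_injective (fun x : Fin m ⊕ Bool => match x with
    | Sum.inl l => jl l
    | Sum.inr true => ja
    | Sum.inr false => jb) (by
      rintro (l | (_ | _)) (l' | (_ | _)) hll
      · simp only at hll
        have := hjl l
        rw [hll, hjl l'] at this
        simpa using this.symm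
      · simp only at hll
        have := hjl l
        rw [hll, hjb] at this
        simp at this
      · simp only at hll
        have := hjl l
        rw [hll, hja] at this
        simp at this
      · simp only at hll
        have := hjl l'
        rw [← hll, hjb] at this
        simp at this
      · rfl
      · simp only at hll
        rw [← hll, hjb] at hja
        simp only [Sum.inl.injEq] at hja
        exact absurd hja.symm hab
      · simp only at hll
        have := hjl l'
        rw [← hll, hja] at this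
        simp at this
      · simp only at hll
        rw [hll, hjb] at hja
        simp only [Sum.inl.injEq] at hja
        exact absurd hja.symm hab
      · rfl)
  simpa using this

/-- the cycle through the ear -/
theorem ear_cycle (hab : H.Adj a b) (p : ℕ) :
    (cycleGraph (p + 3)).IsContained (ear H a b (p + 1)) := by
  refine copy_of_cyc (fun j : Fin (p + 3) => if j.val = 0 then Sum.inl a else
    if h : j.val - 1 < p + 1 then Sum.inr ⟨j.val - 1, h⟩ else Sum.inl b) ?_ ?_
  · intro x y hxy
    have hne := hab.ne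
    have hx := x.2
    have hy := y.2
    simp only at hxy
    apply Fin.ext
    split_ifs at hxy with h1 h2 h3 h4 h5 h6 h7 h8
    all_goals first
      | omega
      | (simp at hxy; done)
      | (simp only [Sum.inl.injEq] at hxy; exact absurd hxy hne)
      | (simp only [Sum.inl.injEq] at hxy; exact absurd hxy.symm hne)
      | (simp only [Sum.inr.injEq, Fin.mk.injEq] at hxy; omega)
  · intro j
    have hj := j.2
    by_cases hlast : j.val + 1 < p + 3
    · have hv : (j + 1).val = j.val + 1 := by
        rw [Fin.val_add, Fin.val_one, Nat.mod_eq_of_lt hlast]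
      simp only [hv]
      rw [if_neg (by omega : ¬ j.val + 1 = 0)]
      split_ifs with h1 h2 h3 h4
      all_goals first
        | omega
        | (rw [ear_lr]; left; exact ⟨rfl, by simp only; omega⟩)
        | (rw [ear_rr]; left; simp only; omega)
        | (rw [ear_rl]; right; exact ⟨rfl, by simp only; omega⟩)
    · have hv : (j + 1).val = 0 := by
        rw [Fin.val_add, Fin.val_one, show j.val + 1 = p + 3 by omega, Nat.mod_self]
      simp only [hv, if_true]
      rw [if_neg (by omega), dif_neg (by omega)]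
      exact hab.symm

end Pool.Agent.W207.ST
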