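import Pool.Agent.W207.ST.Count

/-!
# Graphs of large girth and large chromatic number (Erdős 1959)
-/

set_option autoImplicit false

namespace Pool.Agent.W207.ST

open Finset SimpleGraph

/-- the graph of a function -/
def gr {N m : ℕ} (f : Fin m → Fin N × Fin N) : SimpleGraph (Fin N) :=
  SimpleGraph.fromRel (fun u v => ∃ e, f e = (u, v))

/-- the bad pairs -/
def badP {N m : ℕ} (f : Fin m → Fin N × Fin N) (i : ℕ) (x : (Fin (i + 3) → Fin N) × (Fin (i + 3) → Fin m)) :
    Prop :=
  Function.Injective x.2 ∧ ∀ j, f (x.2 j) = (x.1 j, x.1 (j + 1)) ∨ f (x.2 j) = (x.1 (j + 1), x.1 j)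

open Classical in
/-- number of bad pairs -/
noncomputable def nb {N m : ℕ} (f : Fin m → Fin N × Fin N) (i : ℕ) : ℕ :=
  ((univ : Finset ((Fin (i + 3) → Fin N) × (Fin (i + 3) → Fin m))).filter (badP f i)).card

theorem sum_nb {N C : ℕ} (hN : 0 < N) (i : ℕ) :
    ∑ f : Fin (C * N) → Fin N × Fin N, nb f i ≤
      (2 * C) ^ (i + 3) * Fintype.card (Fin (C * N) → Fin N × Fin N) := by
  classical
  have hT : Fintype.card (Fin N × Fin N) = N * N := by simp
  have hO : Fintype.card (Fin (C * N) → Fin N × Fin N) = (N * N) ^ (C * N) := by simp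
  -- swap
  have e1 : ∑ f : Fin (C * N) → Fin N × Fin N, nb f i =
      ∑ x : (Fin (i + 3) → Fin N) × (Fin (i + 3) → Fin (C * N)),
        ((univ : Finset (Fin (C * N) → Fin N × Fin N)).filter (fun f => badP f i x)).card := by
    simp only [nb, card_filter]
    rw [sum_comm]
  have e2 : ∀ x : (Fin (i + 3) → Fin N) × (Fin (i + 3) → Fin (C * N)),
      ((univ : Finset (Fin (C * N) → Fin N × Fin N)).filter (fun f => badP f i x)).card *
        (N * N) ^ (i + 3) ≤ 2 ^ (i + 3) * (N * N) ^ (C * N) := by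
    intro x
    by_cases hx : Function.Injective x.2
    · have := card_constr (T := Fin N × Fin N) x.2 hx
        (fun j => {(x.1 j, x.1 (j + 1)), (x.1 (j + 1), x.1 j)}) (fun j => card_le_two)
      rw [hT] at this
      refine le_trans (Nat.mul_le_mul_right _ (card_le_card ?_)) this
      intro f hf
      rw [mem_filter] at hf ⊢
      refine ⟨hf.1, fun j => ?_⟩
      have := hf.2.2 j
      simpa using this
    · have : ((univ : Finset (Fin (C * N) → Fin N × Fin N)).filter (fun f => badP f i x)) = ∅ := by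
        rw [filter_eq_empty_iff]
        intro f _ hf
        exact hx hf.1
      rw [this, card_empty, zero_mul]
      exact Nat.zero_le _
  have e3 : (∑ f : Fin (C * N) → Fin N × Fin N, nb f i) * (N * N) ^ (i + 3) ≤
      (N ^ (i + 3) * (C * N) ^ (i + 3)) * (2 ^ (i + 3) * (N * N) ^ (C * N)) := by
    rw [e1, sum_mul]
    refine le_trans (sum_le_sum fun x _ => e2 x) ?_
    rw [sum_const, card_univ, smul_eq_mul]
    simp
  rw [hO]
  have hpos : 0 < (N * N) ^ (i + 3) := by positivity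
  refine Nat.le_of_mul_le_mul_right (le_trans e3 (le_of_eq ?_)) hpos
  rw [mul_pow, mul_pow, mul_pow]
  ring

open Classical in
theorem indep_count {N m s : ℕ} (S : Finset (Fin N)) (hS : S.card = s) :
    ((univ : Finset (Fin m → Fin N × Fin N)).filter
      (fun f => ∀ u ∈ S, ∀ v ∈ S, ¬ (gr f).Adj u v)).card ≤ (N * N - (s * s - s)) ^ m := by
  have hsub : ((univ : Finset (Fin m → Fin N × Fin N)).filter
      (fun f => ∀ u ∈ S, ∀ v ∈ S, ¬ (gr f).Adj u v)) ⊆
      Fintype.piFinset (fun _ : Fin m => (univ \ S.offDiag : Finset (Fin N × Fin N))) := by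
    intro f hf
    rw [mem_filter] at hf
    rw [Fintype.mem_piFinset]
    intro e
    rw [mem_sdiff]
    refine ⟨mem_univ _, fun h => ?_⟩
    rw [mem_offDiag] at h
    refine hf.2 (f e).1 h.1 (f e).2 h.2.1 ?_
    rw [gr, SimpleGraph.fromRel_adj]
    exact ⟨h.2.2, Or.inl ⟨e, rfl⟩⟩
  refine le_trans (card_le_card hsub) ?_
  rw [Fintype.card_piFinset, prod_const, card_univ, Fintype.card_fin]
  refine Nat.pow_le_pow_left ?_ _
  rw [card_sdiff_of_subset (subset_univ _), offDiag_card, hS, card_univ, Fintype.card_prod,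
    Fintype.card_fin]

theorem exists_C (k : ℕ) (hk : 0 < k) : ∃ C : ℕ, 4 * (8 * k ^ 2 - 1) ^ C ≤ (8 * k ^ 2) ^ C := by
  have hk1 : (1 : ℝ) ≤ (k : ℝ) := by exact_mod_cast hk
  have h0 : (0 : ℝ) < 8 * (k : ℝ) ^ 2 := by positivity
  have h1 : (1 : ℝ) ≤ 8 * (k : ℝ) ^ 2 := by nlinarith
  obtain ⟨C, hC⟩ := exists_pow_lt_of_lt_one (x := (1 : ℝ) / 4) (y := (8 * (k : ℝ) ^ 2 - 1) / (8 * (k : ℝ) ^ 2))
    (by norm_num) (by rw [div_lt_one h0]; linarith)
  refine ⟨C, ?_⟩
  rw [div_pow, div_lt_iff₀ (by positivity)] at hC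
  have h2 : (1 : ℕ) ≤ 8 * k ^ 2 := by nlinarith
  have : (4 : ℝ) * ((8 * k ^ 2 - 1 : ℕ) : ℝ) ^ C ≤ ((8 * k ^ 2 : ℕ) : ℝ) ^ C := by
    rw [Nat.cast_sub h2]
    push_cast
    linarith
  exact_mod_cast this

open Classical in
/-- there is a function with few bad pairs and no large independent set -/
theorem exists_f (k g : ℕ) (hk : 0 < k) : ∃ C B : ℕ, ∀ s : ℕ, 2 ≤ s →
    ∃ f : Fin (C * (2 * k * s)) → Fin (2 * k * s) × Fin (2 * k * s),
      (∑ i ∈ range g, nb f i ≤ 2 * B) ∧
      ∀ S : Finset (Fin (2 * k * s)), S.card = s → ∃ u ∈ S, ∃ v ∈ S, (gr f).Adj u v := by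
  obtain ⟨C, hC⟩ := exists_C k hk
  set B := ∑ i ∈ range g, (2 * C) ^ (i + 3) with hB
  refine ⟨C, B, fun s hs => ?_⟩
  set N := 2 * k * s with hNdef
  have hN : 0 < N := by positivity
  set T := Fintype.card (Fin (C * N) → Fin N × Fin N) with hT
  have hTv : T = (N * N) ^ (C * N) := by rw [hT]; simp
  have hTpos : 0 < T := by rw [hTv]; positivity
  have hsum : ∑ f : Fin (C * N) → Fin N × Fin N, ∑ i ∈ range g, nb f i ≤ B * T := by
    rw [sum_comm, hB, sum_mul]
    exact sum_le_sum fun i _ => sum_nb hN i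
  set bad1 := (univ : Finset (Fin (C * N) → Fin N × Fin N)).filter
    (fun f => ¬ (∑ i ∈ range g, nb f i ≤ 2 * B)) with hbad1
  set bad2 := (univ : Finset (Fin (C * N) → Fin N × Fin N)).filter
    (fun f => ∃ S : Finset (Fin N), S.card = s ∧ ∀ u ∈ S, ∀ v ∈ S, ¬ (gr f).Adj u v) with hbad2
  have hb1 : 2 * bad1.card < T := by
    have h1 : (2 * B + 1) * bad1.card ≤ B * T := by
      refine le_trans ?_ hsum
      refine le_trans ?_ (sum_le_sum_of_subset (filter_subset (fun f => ¬ (∑ i ∈ range g, nb f i ≤ 2 * B)) _))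
      rw [mul_comm, ← smul_eq_mul]
      refine card_nsmul_le_sum _ _ _ fun f hf => ?_
      rw [mem_filter] at hf
      omega
    by_contra hcon
    push Not at hcon
    nlinarith
  have hb2 : 2 * bad2.card ≤ T := by
    have hsub : bad2 ⊆ ((univ : Finset (Finset (Fin N))).filter (fun S => S.card = s)).biUnion
        (fun S => (univ : Finset (Fin (C * N) → Fin N × Fin N)).filter
          (fun f => ∀ u ∈ S, ∀ v ∈ S, ¬ (gr f).Adj u v)) := by
      intro f hf
      rw [hbad2, mem_filter] at hf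
      obtain ⟨_, S, hS, hS'⟩ := hf
      rw [mem_biUnion]
      exact ⟨S, by simp [hS], by rw [mem_filter]; exact ⟨mem_univ _, hS'⟩⟩
    have h1 : bad2.card ≤ 2 ^ N * (N * N - (s * s - s)) ^ (C * N) := by
      refine le_trans (card_le_card hsub) (le_trans card_biUnion_le ?_)
      refine le_trans (sum_le_card_nsmul _ _ ((N * N - (s * s - s)) ^ (C * N)) ?_) ?_
      · intro S hS
        rw [mem_filter] at hS
        exact indep_count S hS.2
      · rw [smul_eq_mul]
        refine Nat.mul_le_mul_right _ ?_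
        refine le_trans (card_filter_le _ _) ?_
        rw [card_univ, Fintype.card_finset, Fintype.card_fin]
    have h2 : (8 * k ^ 2) * (N * N - (s * s - s)) ≤ (8 * k ^ 2 - 1) * (N * N) := by
      obtain ⟨s', rfl⟩ : ∃ s', s = s' + 2 := ⟨s - 2, by omega⟩
      obtain ⟨k', rfl⟩ : ∃ k', k = k' + 1 := ⟨k - 1, by omega⟩
      have e1 : (s' + 2) * (s' + 2) - (s' + 2) = (s' + 2) * (s' + 1) := by
        rw [Nat.sub_eq_iff_eq_add (by nlinarith)]; ring
      have e2 : 8 * (k' + 1) ^ 2 - 1 = 8 * k' ^ 2 + 16 * k' + 7 := by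
        have : 8 * (k' + 1) ^ 2 = 8 * k' ^ 2 + 16 * k' + 8 := by ring
        omega
      rw [e1, e2, hNdef, Nat.mul_sub, Nat.sub_le_iff_le_add]
      nlinarith [Nat.zero_le s', Nat.zero_le k', Nat.zero_le (s' * k'), Nat.zero_le (s' * k' ^ 2),
        Nat.zero_le (s' ^ 2 * k'), Nat.zero_le (s' ^ 2 * k' ^ 2)]
    have hK : 0 < (8 * k ^ 2) ^ (C * N) := by positivity
    have h3 : 4 ^ N * (N * N - (s * s - s)) ^ (C * N) ≤ (N * N) ^ (C * N) := by
      refine Nat.le_of_mul_le_mul_left ?_ hK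
      calc (8 * k ^ 2) ^ (C * N) * (4 ^ N * (N * N - (s * s - s)) ^ (C * N))
          = 4 ^ N * ((8 * k ^ 2) * (N * N - (s * s - s))) ^ (C * N) := by rw [mul_pow (8 * k ^ 2)]; ring
        _ ≤ 4 ^ N * ((8 * k ^ 2 - 1) * (N * N)) ^ (C * N) :=
            Nat.mul_le_mul_left _ (Nat.pow_le_pow_left h2 _)
        _ = (4 * (8 * k ^ 2 - 1) ^ C) ^ N * (N * N) ^ (C * N) := by
            rw [mul_pow, mul_pow, pow_mul (8 * k ^ 2 - 1)]; ring
        _ ≤ ((8 * k ^ 2) ^ C) ^ N * (N * N) ^ (C * N) :=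
            Nat.mul_le_mul_right _ (Nat.pow_le_pow_left hC _)
        _ = (8 * k ^ 2) ^ (C * N) * (N * N) ^ (C * N) := by rw [pow_mul (8 * k ^ 2)]
    calc 2 * bad2.card ≤ 2 * (2 ^ N * (N * N - (s * s - s)) ^ (C * N)) := Nat.mul_le_mul_left _ h1
      _ ≤ 4 ^ N * (N * N - (s * s - s)) ^ (C * N) := by
          rw [← mul_assoc]
          refine Nat.mul_le_mul_right _ ?_
          have : (4 : ℕ) ^ N = 2 ^ N * 2 ^ N := by rw [← mul_pow]; norm_num
          rw [this]
          refine Nat.mul_le_mul_right _ ?_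
          calc 2 = 2 ^ 1 := rfl
            _ ≤ 2 ^ N := Nat.pow_le_pow_right (by norm_num) hN
      _ ≤ (N * N) ^ (C * N) := h3
      _ = T := hTv.symm
  have hne : ∃ f : Fin (C * N) → Fin N × Fin N, f ∉ bad1 ∪ bad2 := by
    by_contra hcon
    push Not at hcon
    have : (univ : Finset (Fin (C * N) → Fin N × Fin N)).card ≤ (bad1 ∪ bad2).card :=
      card_le_card fun f _ => hcon f
    rw [card_univ] at this
    have h4 := card_union_le bad1 bad2
    omega
  obtain ⟨f, hf⟩ := hne
  rw [mem_union, not_or] at hf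
  refine ⟨f, ?_, ?_⟩
  · have := hf.1
    rw [hbad1, mem_filter, not_and, not_not] at this
    exact this (mem_univ _)
  · have := hf.2
    rw [hbad2, mem_filter, not_and] at this
    have h5 := this (mem_univ _)
    push Not at h5
    intro S hS
    exact h5 S hS

/-- the graph of a function with some isolated vertices -/
def grR {N m : ℕ} (f : Fin m → Fin N × Fin N) (R : Finset (Fin N)) : SimpleGraph (Fin N) where
  Adj u v := (gr f).Adj u v ∧ u ∉ R ∧ v ∉ R
  symm := ⟨fun _ _ h => ⟨h.1.symm, h.2.2, h.2.1⟩⟩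
  loopless := ⟨fun _ h => h.1.ne rfl⟩

open Classical in
/-- **Erdős 1959**: graphs without cycles of length at most `g + 2` which are not
`k`-colourable -/
theorem erdos (k g : ℕ) : ∃ (n : ℕ) (G : SimpleGraph (Fin n)),
    (∀ i, i < g → ¬ (cycleGraph (i + 3)).IsContained G) ∧ ¬ G.Colorable k := by
  rcases Nat.eq_zero_or_pos k with rfl | hk
  · refine ⟨1, ⊥, ?_, ?_⟩
    · rintro i _ ⟨c⟩
      have := Fintype.card_le_of_injective _ c.injective
      simp at this
    · rw [SimpleGraph.colorable_zero_iff]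
      exact fun h => h.false (0 : Fin 1)
  obtain ⟨C, B, hCB⟩ := exists_f k g hk
  obtain ⟨s, hs⟩ : ∃ s, s = 2 * B + 2 := ⟨_, rfl⟩
  obtain ⟨f, hf1, hf2⟩ := hCB s (by omega)
  obtain ⟨R, hR⟩ : ∃ R : Finset (Fin (2 * k * s)), R = (range g).biUnion fun i =>
    ((univ : Finset ((Fin (i + 3) → Fin (2 * k * s)) × (Fin (i + 3) → Fin (C * (2 * k * s))))).filter
      (badP f i)).image (fun x => x.1 0) := ⟨_, rfl⟩
  have hRc : R.card ≤ 2 * B := by
    rw [hR]
    refine le_trans card_biUnion_le (le_trans (sum_le_sum fun i _ => card_image_le) hf1)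
  refine ⟨2 * k * s, grR f R, ?_, ?_⟩
  · rintro i hi ⟨c⟩
    have hadj : ∀ j : Fin (i + 3), (grR f R).Adj (c j) (c (j + 1)) := by
      intro j
      apply c.toHom.map_adj
      rw [cycleGraph_adj]
      right
      simp
    have hex : ∀ j : Fin (i + 3), ∃ e, f e = (c j, c (j + 1)) ∨ f e = (c (j + 1), c j) := by
      intro j
      have := (hadj j).1
      rw [gr, SimpleGraph.fromRel_adj] at this
      rcases this.2 with ⟨e, he⟩ | ⟨e, he⟩
      · exact ⟨e, Or.inl he⟩
      · exact ⟨e, Or.inr he⟩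
    choose es hes using hex
    have h2 : ∀ l : Fin (i + 3), l + 1 + 1 ≠ l := by
      intro l h
      have : (1 : Fin (i + 3)) + 1 = 0 := by
        have := congrArg (fun t => t - l) h
        simpa [add_assoc] using this
      have h3 := congrArg Fin.val this
      rw [Fin.val_add, Fin.val_one, Fin.val_zero, Nat.mod_eq_of_lt (by omega)] at h3
      omega
    have hinj : Function.Injective es := by
      intro j l hjl
      have h1 := hes j
      have h3 := hes l
      rw [hjl] at h1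
      have ci := c.injective
      rcases h1 with h1 | h1 <;> rcases h3 with h3 | h3 <;> rw [h1] at h3 <;>
        rw [Prod.mk.injEq] at h3
      · exact ci h3.1
      · have a1 := ci h3.1
        have a2 := ci h3.2
        rw [a1] at a2
        exact absurd a2 (h2 l)
      · have a1 := ci h3.1
        have a2 := ci h3.2
        rw [a2] at a1
        exact absurd a1 (h2 l)
      · exact ci h3.2
    have hgen : ∀ w : Fin (i + 3) → Fin (2 * k * s),
        (∀ j, f (es j) = (w j, w (j + 1)) ∨ f (es j) = (w (j + 1), w j)) → w 0 ∈ R := by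
      intro w hw
      rw [hR]
      refine mem_biUnion.2 ⟨i, mem_range.2 hi, ?_⟩
      rw [mem_image]
      refine ⟨(w, es), ?_, rfl⟩
      rw [mem_filter]
      exact ⟨mem_univ _, hinj, hw⟩
    exact (hadj 0).2.1 (hgen (fun j => c j) hes)
  · rintro ⟨col⟩
    have hcard : k * s ≤ (univ \ R : Finset (Fin (2 * k * s))).card := by
      rw [card_sdiff_of_subset (subset_univ _), card_univ, Fintype.card_fin]
      have : k * s + 2 * B ≤ 2 * k * s := by nlinarith
      omega
    obtain ⟨y, _, hy⟩ := exists_le_card_fiber_of_mul_le_card_of_maps_to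
      (s := (univ \ R : Finset (Fin (2 * k * s)))) (t := (univ : Finset (Fin k))) (n := s)
      (f := fun v => col v) (fun _ _ => mem_univ _) ⟨⟨0, hk⟩, mem_univ _⟩
      (by rw [card_univ, Fintype.card_fin]; exact hcard)
    obtain ⟨S, hS, hSc⟩ := exists_subset_card_eq hy
    obtain ⟨u, hu, v, hv, huv⟩ := hf2 S hSc
    have hu' := mem_filter.1 (hS hu)
    have hv' := mem_filter.1 (hS hv)
    have : (grR f R).Adj u v := ⟨huv, (mem_sdiff.1 hu'.1).2, (mem_sdiff.1 hv'.1).2⟩
    exact col.valid this (hu'.2.trans hv'.2.symm)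

end Pool.Agent.W207.ST
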