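import Pool.Agent.W207.ST.Ear

/-!
# Girth, chromatic number, connectedness and orientation of the graph with an ear
-/

set_option autoImplicit false

namespace Pool.Agent.W207.ST

open Finset SimpleGraph

variable {W : Type} {H : SimpleGraph W} {a b : W}

theorem ear_girth {p g : ℕ} (hab : H.Adj a b) (hg : p ≤ g)
    (hH : ∀ i, i < g → ¬ (cycleGraph (i + 3)).IsContained H) :
    (ear H a b (p + 1)).girth = p + 3 := by
  have h1 : (ear H a b (p + 1)).egirth = ((p + 3 : ℕ) : ℕ∞) := by
    apply le_antisymm
    · obtain ⟨v, w, hw, hwl⟩ := (cycleGraph_isContained_iff (by omega)).1 (ear_cycle hab p)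
      exact (egirth_le_length hw).trans (by rw [hwl])
    · rw [le_egirth]
      intro v w hw
      have h3 := hw.three_le_length
      obtain ⟨i, hi⟩ : ∃ i, w.length = i + 3 := ⟨w.length - 3, by omega⟩
      have hc : (cycleGraph (i + 3)).IsContained (ear H a b (p + 1)) :=
        (cycleGraph_isContained_iff (by omega)).2 ⟨v, w, hw, hi⟩
      obtain ⟨f, hf, hadj⟩ := cyc_of_copy hc
      rw [hi]
      rcases cyc_ear f hf hadj with h | ⟨h4, h5, h6⟩
      · have := cyc_left f hf hadj h
        by_contra hcon
        rw [Nat.cast_le, not_le] at hcon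
        exact hH i (by omega) this
      · have := cyc_card hab.ne f h4 h5 h6
        rw [Nat.cast_le]
        exact this
  rw [girth, h1]
  rfl

theorem ear_connected {p : ℕ} (hH : H.Connected) : (ear H a b (p + 1)).Connected := by
  have hinl : ∀ u v : W, (ear H a b (p + 1)).Reachable (Sum.inl u) (Sum.inl v) := by
    intro u v
    have h := hH.preconnected u v
    obtain ⟨w⟩ := h
    exact ⟨w.map (⟨Sum.inl, fun {x y} hxy => hxy⟩ : H →g ear H a b (p + 1))⟩
  have hinr : ∀ n : ℕ, ∀ h : n < p + 1,
      (ear H a b (p + 1)).Reachable (Sum.inl a) (Sum.inr ⟨n, h⟩) := by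
    intro n
    induction n with
    | zero =>
      intro h
      exact Adj.reachable (ear_lr.2 (Or.inl ⟨rfl, rfl⟩))
    | succ n ih =>
      intro h
      exact (ih (by omega)).trans (Adj.reachable (ear_rr.2 (Or.inl rfl)))
  have hall : ∀ x, (ear H a b (p + 1)).Reachable (Sum.inl a) x := by
    rintro (u | ⟨n, h⟩)
    · exact hinl a u
    · exact hinr n h
  have : Nonempty (W ⊕ Fin (p + 1)) := ⟨Sum.inl a⟩
  exact { preconnected := fun x y => (hall x).symm.trans (hall y) }

theorem ear_chrom {k m : ℕ} (hk : 2 ≤ k) (hab : H.Adj a b) (h1 : H.Colorable (k + 1))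
    (h2 : ¬ H.Colorable k) : (ear H a b m).chromaticNumber = ((k + 1 : ℕ) : ℕ∞) := by
  have h3 : (ear H a b m).Colorable (k + 1) := by
    rw [colorable_iff_exists_bdd_nat_coloring] at h1 ⊢
    obtain ⟨C, hC⟩ := h1
    obtain ⟨x, hx, hxa, hxb⟩ : ∃ x, x < k + 1 ∧ x ≠ C a ∧ x ≠ C b := by
      by_cases h0 : 0 ≠ C a ∧ 0 ≠ C b
      · exact ⟨0, by omega, h0.1, h0.2⟩
      by_cases h4 : 1 ≠ C a ∧ 1 ≠ C b
      · exact ⟨1, by omega, h4.1, h4.2⟩
      refine ⟨2, by omega, ?_, ?_⟩ <;> omega
    have hCab := C.valid hab
    refine ⟨Coloring.mk (fun y => match y with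
      | Sum.inl u => C u
      | Sum.inr j => if j.val % 2 = 0 then x else C a) ?_, ?_⟩
    · rintro (u | j) (v | l) huv
      · exact C.valid (ear_ll.1 huv)
      · rw [ear_lr] at huv
        simp only
        rcases huv with ⟨rfl, h⟩ | ⟨rfl, h⟩
        · rw [if_pos (by omega)]
          exact hxa.symm
        · split_ifs
          · exact hxb.symm
          · exact hCab.symm
      · rw [ear_rl] at huv
        simp only
        rcases huv with ⟨rfl, h⟩ | ⟨rfl, h⟩
        · rw [if_pos (by omega)]
          exact hxa
        · split_ifs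
          · exact hxb
          · exact hCab
      · rw [ear_rr] at huv
        simp only
        split_ifs with h5 h6 h6
        · omega
        · exact hxa
        · exact hxa.symm
        · omega
    · rintro (u | j)
      · exact hC u
      · change (if j.val % 2 = 0 then x else C a) < k + 1
        split_ifs
        · exact hx
        · exact hC a
  have h4 : ¬ (ear H a b m).Colorable k := by
    rintro ⟨c⟩
    apply h2
    exact ⟨c.comp (⟨Sum.inl, fun {x y} hxy => hxy⟩ : H →g ear H a b m)⟩
  have := (chromaticNumber_eq_iff_colorable_not_colorable (G := ear H a b m) (n := k)).2 ⟨h3, h4⟩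
  rw [this]
  rfl

/-- heights -/
def ht {m : ℕ} (C : W → ℕ) (k : ℕ) : W ⊕ Fin m → ℕ
  | Sum.inl u => C u + 1
  | Sum.inr j => if j.val % 2 = 0 then k + 2 else 0

/-- the orientation towards larger height -/
def dir {V : Type} (G : SimpleGraph V) (h : V → ℕ) (x y : V) : Prop := G.Adj x y ∧ h x < h y

theorem ht_ne {m k : ℕ} (C : H.Coloring ℕ) (hC : ∀ v, C v < k + 1) {x y : W ⊕ Fin m}
    (hxy : (ear H a b m).Adj x y) : ht (m := m) C k x ≠ ht (m := m) C k y := by
  rcases x with u | j <;> rcases y with v | l
  · have := C.valid (ear_ll.1 hxy)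
    simp only [ht]
    omega
  · have := hC u
    simp only [ht]
    split_ifs <;> omega
  · have := hC v
    simp only [ht]
    split_ifs <;> omega
  · rw [ear_rr] at hxy
    simp only [ht]
    split_ifs <;> omega

theorem dir_mono {V : Type} {G : SimpleGraph V} {h : V → ℕ} {t : ℕ} {v : ℕ → V}
    (hv : ∀ i, i < t → dir G h (v i) (v (i + 1))) :
    ∀ i j, i < j → j ≤ t → h (v i) < h (v j) := by
  intro i j hij
  induction j with
  | zero => omega
  | succ j ih =>
    intro hj
    have h1 := (hv j (by omega)).2
    rcases Nat.lt_succ_iff_lt_or_eq.1 hij with h2 | rfl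
    · exact (ih h2 (by omega)).trans h1
    · exact h1

/-- there are no shortcuts -/
theorem no_shortcut {m k g : ℕ} (hm : 2 ≤ m) (C : H.Coloring ℕ) (hC : ∀ v, C v < k + 1)
    (hab : C a < C b) (hg : k - 1 ≤ g) (hk : 1 ≤ k)
    (hH : ∀ i, i < g → ¬ (cycleGraph (i + 3)).IsContained H)
    {t : ℕ} {v : ℕ → W ⊕ Fin m} (ht2 : 2 ≤ t)
    (hv : ∀ i, i < t → dir (ear H a b m) (ht C k) (v i) (v (i + 1)))
    (hvt : dir (ear H a b m) (ht C k) (v 0) (v t)) : False := by
  have hmono := dir_mono hv
  obtain ⟨i, rfl⟩ : ∃ i, t = i + 2 := ⟨t - 2, by omega⟩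
  have hle : ∀ x : W ⊕ Fin m, ht C k x ≤ k + 2 := by
    rintro (u | j)
    · have := hC u
      simp only [ht]; omega
    · simp only [ht]; split_ifs <;> omega
  have hinj : Function.Injective (fun j : Fin (i + 3) => v j.val) := by
    intro x y hxy
    have hx := x.2
    have hy := y.2
    apply Fin.ext
    simp only at hxy
    rcases lt_trichotomy x.val y.val with h | h | h
    · have := hmono _ _ h (by omega)
      rw [hxy] at this
      omega
    · exact h
    · have := hmono _ _ h (by omega)
      rw [hxy] at this
      omega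
  have hadj : ∀ j : Fin (i + 3), (ear H a b m).Adj (v j.val) (v (j + 1).val) := by
    intro j
    have hj := j.2
    by_cases hlast : j.val + 1 < i + 3
    · have hv' : (j + 1).val = j.val + 1 := by
        rw [Fin.val_add, Fin.val_one, Nat.mod_eq_of_lt hlast]
      rw [hv']
      exact (hv j.val (by omega)).1
    · have hv' : (j + 1).val = 0 := by
        rw [Fin.val_add, Fin.val_one, show j.val + 1 = i + 3 by omega, Nat.mod_self]
      rw [hv', show j.val = i + 2 by omega]
      exact hvt.1.symm
  rcases cyc_ear (fun j : Fin (i + 3) => v j.val) hinj hadj with h | ⟨h1, -, -⟩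
  · have hcont := cyc_left (fun j : Fin (i + 3) => v j.val) hinj hadj h
    have hi : ¬ i < g := fun hi => hH i hi hcont
    -- colours increase
    have hcol : ∀ j, j ≤ i + 2 → j + 1 ≤ ht C k (v j) := by
      intro j
      induction j with
      | zero =>
        intro _
        obtain ⟨u, hu⟩ := h 0
        simp only [Fin.val_zero] at hu
        rw [hu]
        simp only [ht]
        omega
      | succ j ih =>
        intro hj
        have h2 := ih (by omega)
        have h3 := (hv j (by omega)).2
        omega
    have h4 := hcol (i + 2) le_rfl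
    obtain ⟨u, hu⟩ := h (Fin.last (i + 2))
    simp only [Fin.val_last] at hu
    rw [hu] at h4
    simp only [ht] at h4
    have := hC u
    omega
  · -- the ear
    have hlast : v (i + 2) = Sum.inr ⟨0, by omega⟩ := by
      obtain ⟨q, hq⟩ := h1 ⟨0, by omega⟩
      have hq2 := q.2
      rcases Nat.lt_or_ge q.val (i + 2) with h | h
      · exfalso
        have h2 := (hv q.val h).2
        rw [hq] at h2
        have h3 := hle (v (q.val + 1))
        have h4 : ht C k (Sum.inr (⟨0, by omega⟩ : Fin m)) = k + 2 := rfl
        rw [h4] at h2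
        omega
      · rw [← hq]
        congr 1
        omega
    have hfirst : v 0 = Sum.inr ⟨1, by omega⟩ := by
      obtain ⟨q, hq⟩ := h1 ⟨1, by omega⟩
      have hq2 := q.2
      rcases Nat.eq_zero_or_pos q.val with h | h
      · rw [← hq, h]
      · exfalso
        have h2 := (hv (q.val - 1) (by omega)).2
        rw [Nat.sub_add_cancel h, hq] at h2
        simp [ht] at h2
    -- the neighbours
    have hn1 := (hv 0 (by omega)).1
    have hn2 := (hv (i + 1) (by omega)).1.symm
    simp only [zero_add] at hn1
    rw [hfirst] at hn1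
    rw [show i + 1 + 1 = i + 2 by omega, hlast] at hn2
    have hm1 : ht C k (v 1) < ht C k (v (i + 2)) := hmono 1 (i + 2) (by omega) le_rfl
    have hm2 : ht C k (v 0) < ht C k (v (i + 1)) := hmono 0 (i + 1) (by omega) (by omega)
    have hv1 : v 1 = Sum.inl b := by
      rcases nbr hn1 with h | h
      · exfalso
        rw [prv, if_neg (by simp)] at h
        rw [h, hlast] at hm1
        simp at hm1
      · rw [nxt] at h
        split_ifs at h with h5
        · exfalso
          rw [h, hlast] at hm1
          simp [ht] at hm1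
        · exact h
    have hv2 : v (i + 1) = Sum.inl a := by
      rcases nbr hn2 with h | h
      · rw [prv, if_pos rfl] at h
        exact h
      · exfalso
        rw [nxt, dif_pos (by simp only; omega)] at h
        rw [h, hfirst] at hm2
        simp at hm2
    rcases Nat.eq_zero_or_pos i with rfl | hi
    · rw [zero_add] at hv2
      rw [hv1] at hv2
      simp only [Sum.inl.injEq] at hv2
      rw [hv2] at hab
      exact lt_irrefl _ hab
    · have := hmono 1 (i + 1) (by omega) (by omega)
      rw [hv1, hv2] at this
      simp only [ht] at this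
      omega

end Pool.Agent.W207.ST
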